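import Pool.Agent.H900.X6.Df

/-! # Parametrizations of degree six (project X6 of helper900): the substitution `subst` -/

set_option autoImplicit false

namespace Pool.Agent.H900.X6

open MvPolynomial Module

noncomputable section

variable {n : ℕ}

theorem subst_hom {R : Type} [CommRing R] (p : Fin (n + 2) → R)
    {F : MvPolynomial (Fin (n + 2)) R} (hF : F.IsHomogeneous 3) :
    (subst p F).IsHomogeneous 3 := by
  have h := hF.aeval (n := 1)
    (fun i => if i = 0 then (X 0 : MvPolynomial (Fin (n + 2)) R) else X i + C (p i) * X 0) ?_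
  · rw [one_mul] at h
    exact h
  · intro i
    by_cases hi : i = 0
    · simp only [hi, if_true]
      exact isHomogeneous_X _ _
    · simp only [hi, if_false]
      refine (isHomogeneous_X _ _).add ?_
      have h2 := (isHomogeneous_C (Fin (n + 2)) (p i)).mul (isHomogeneous_X R (0 : Fin (n + 2)))
      rw [zero_add] at h2
      exact h2

theorem X6I_coeff {R : Type} [CommRing R] {G : MvPolynomial (Fin (n + 2)) R}
    (hG : G.IsHomogeneous 3) : coeff (Finsupp.single 0 3) G = eval (e0 n R) G := by
  rw [eval_eq, Finset.sum_eq_single (Finsupp.single (0 : Fin (n + 2)) 3)]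
  · rw [Finset.prod_eq_one, mul_one]
    intro i hi
    rw [Finsupp.mem_support_iff, Finsupp.single_apply] at hi
    have h0 : 0 = i := by
      by_contra hne
      rw [if_neg hne] at hi
      exact hi rfl
    rw [← h0]
    unfold e0
    rw [Pi.single_eq_same, one_pow]
  · intro d hd hne
    have hdeg : d.degree = 3 := by
      by_contra h
      exact (mem_support_iff.1 hd) (hG.coeff_eq_zero h)
    have h1 : ∃ i, i ≠ 0 ∧ d i ≠ 0 := by
      by_contra hcon
      push Not at hcon
      apply hne
      ext i
      rw [Finsupp.single_apply]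
      by_cases hi : 0 = i
      · rw [if_pos hi, ← hi]
        rw [Finsupp.degree_eq_sum, Finset.sum_eq_single (0 : Fin (n + 2))] at hdeg
        · exact hdeg
        · intro j _ hj
          exact hcon j hj
        · intro h
          exact absurd (Finset.mem_univ _) h
      · rw [if_neg hi]
        exact hcon i (fun h => hi h.symm)
    obtain ⟨i, hi, hdi⟩ := h1
    rw [Finset.prod_eq_zero (Finsupp.mem_support_iff.2 hdi), mul_zero]
    unfold e0
    rw [Pi.single_eq_of_ne hi, zero_pow hdi]
  · intro h
    rw [notMem_support_iff.1 h, zero_mul]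

theorem subst_coeff {R : Type} [CommRing R] {p : Fin (n + 2) → R} (hp0 : p 0 = 1)
    {F : MvPolynomial (Fin (n + 2)) R} (hF : F.IsHomogeneous 3) :
    coeff (Finsupp.single 0 3) (subst p F) = eval p F := by
  rw [X6I_coeff (subst_hom p hF)]
  unfold subst
  have hev : ∀ (x : Fin (n + 2) → R) (F : MvPolynomial (Fin (n + 2)) R), eval x F = aeval x F :=
    fun x F => rfl
  rw [hev, hev, comp_aeval_apply]
  congr 2
  funext i
  by_cases hi : i = 0
  · simp [hi, hp0, e0]
  · simp [hi, e0]

/-- T8. change of coordinates and the field of ratios -/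
theorem subst_point {k M : Type} [Field k] [Field M] [Algebra k M] (p : Fin (n + 2) → k)
    (F : MvPolynomial (Fin (n + 2)) k) (g : Fin (n + 2) → M) :
    aeval (fun i => if i = 0 then g 0 else g i + algebraMap k M (p i) * g 0) F =
      aeval g (subst p F) := by
  unfold subst
  rw [comp_aeval_apply]
  congr 2
  funext i
  by_cases hi : i = 0
  · simp [hi]
  · simp [hi]

theorem X6I_sub {k M : Type} [Field k] [Field M] [Algebra k M] (p : Fin (n + 2) → k)
    {g h : Fin (n + 2) → M}
    (hh : ∀ i, h i = if i = 0 then g 0 else g i + algebraMap k M (p i) * g 0) (hg : g ≠ 0) :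
    IntermediateField.adjoin k {y | ∃ i j, y = h i / h j} ≤
      IntermediateField.adjoin k {y | ∃ i j, y = g i / g j} := by
  rw [IntermediateField.adjoin_le_iff]
  rintro y ⟨i, j, rfl⟩
  obtain ⟨l, hl⟩ : ∃ l, g l ≠ 0 := by
    by_contra hcon
    push Not at hcon
    exact hg (funext hcon)
  have h1 : ∀ i, h i / g l ∈ IntermediateField.adjoin k {y | ∃ i j, y = g i / g j} := by
    intro i
    have h2 : ∀ i, g i / g l ∈ IntermediateField.adjoin k {y | ∃ i j, y = g i / g j} := fun i =>
      IntermediateField.subset_adjoin _ _ ⟨i, l, rfl⟩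
    rw [hh i]
    by_cases hi : i = 0
    · rw [if_pos hi]
      exact h2 0
    · rw [if_neg hi, add_div, mul_div_assoc]
      exact add_mem (h2 i) (mul_mem (IntermediateField.algebraMap_mem _ _) (h2 0))
  have h3 : h i / h j = (h i / g l) / (h j / g l) := by
    rw [div_div_div_cancel_right₀ hl]
  rw [h3]
  exact div_mem (h1 i) (h1 j)

theorem subst_field {k M : Type} [Field k] [Field M] [Algebra k M] (p : Fin (n + 2) → k)
    {g h : Fin (n + 2) → M}
    (hh : ∀ i, h i = if i = 0 then g 0 else g i + algebraMap k M (p i) * g 0) (hg : g ≠ 0) :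
    IntermediateField.adjoin k {y | ∃ i j, y = h i / h j} =
      IntermediateField.adjoin k {y | ∃ i j, y = g i / g j} := by
  have h0 : h 0 = g 0 := by rw [hh 0, if_pos rfl]
  have hg' : ∀ i, g i = if i = 0 then h 0 else h i + algebraMap k M (-p i) * h 0 := by
    intro i
    by_cases hi : i = 0
    · rw [if_pos hi, hi, h0]
    · rw [if_neg hi, hh i, if_neg hi, h0, map_neg]
      ring
  have hh0 : h ≠ 0 := by
    intro hz
    apply hg
    funext i
    rw [hg' i, hz]
    by_cases hi : i = 0
    · rw [if_pos hi]
      rfl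
    · rw [if_neg hi]
      simp
  exact le_antisymm (X6I_sub p hh hg) (X6I_sub (fun i => -p i) hg' hh0)

end

end Pool.Agent.H900.X6
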